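import Mathlib
import Pool.Agent.K9h94.ThF.Final

set_option autoImplicit false
set_option linter.unusedVariables false

/-!
# Quadratic equations in Thompson's group `F`

Words are lists of letters `(sign, constant or variable)`; the sign `false` means the inverse.
The theorem `result` decides all quadratic words which contain a handle or two crosscaps
(`Handle` below).

These are all quadratic words except those which are equivalent, over every group, to a spherical
equation `c₁^{y₁} ⋯ cₙ^{yₙ} = 1` or to a projective equation `s² c₁^{y₁} ⋯ cₙ^{yₙ} = 1`; this is the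
lemma `without_handle` below.
-/

namespace Pool.Agent.Results.MP_3bcd2d_al.QuadraticWithHandle

/-! ### Thompson's group `F` -/

/-- `r` is a dyadic rational number -/
def IsDyadic (r : ℝ) : Prop := ∃ (m : ℤ) (e : ℕ), r = m / 2 ^ e

/-- `g` belongs to Thompson's group `F`: an increasing bijection of the line, the identity outside
`[0, 1]`, and affine with slopes powers of two on the pieces of a finite subdivision
`0 = t 0 < t 1 < ⋯ < t n = 1` of `[0, 1]` by dyadic rationals -/
def InF (g : Equiv.Perm ℝ) : Prop :=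
  StrictMono g ∧ (∀ x, x ≤ 0 ∨ 1 ≤ x → g x = x) ∧
    ∃ (n : ℕ) (t : ℕ → ℝ) (k : ℕ → ℤ) (c : ℕ → ℝ), t 0 = 0 ∧ t n = 1 ∧
      (∀ i < n, t i < t (i + 1)) ∧ (∀ i ≤ n, IsDyadic (t i)) ∧
      ∀ i < n, ∀ x, t i ≤ x → x ≤ t (i + 1) → g x = (2 : ℝ) ^ k i * x + c i

/-- Thompson's group `F` (the product of `f` and `g` is `x ↦ f (g x)`) -/
def F : Subgroup (Equiv.Perm ℝ) where
  carrier := {g | InF g}
  mul_mem' {a b} ha hb := (Pool.Agent.K9h94.ThF.mem_F_iff _).1
    (Subgroup.mul_mem _ ((Pool.Agent.K9h94.ThF.mem_F_iff a).2 ha)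
      ((Pool.Agent.K9h94.ThF.mem_F_iff b).2 hb))
  one_mem' := (Pool.Agent.K9h94.ThF.mem_F_iff _).1 (Subgroup.one_mem _)
  inv_mem' {a} ha := (Pool.Agent.K9h94.ThF.mem_F_iff _).1
    (Subgroup.inv_mem _ ((Pool.Agent.K9h94.ThF.mem_F_iff a).2 ha))

/-- `g` has slope `2 ^ k` at the left end of `[0, 1]` and slope `2 ^ l` at the right end -/
def Germs (g : ℝ → ℝ) (k l : ℤ) : Prop :=
  (∃ ε > 0, ∀ x, 0 ≤ x → x ≤ ε → g x = (2 : ℝ) ^ k * x) ∧
  (∃ ε > 0, ∀ x, 1 - ε ≤ x → x ≤ 1 → g x = 1 - (2 : ℝ) ^ l * (1 - x))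

/-- the two relators of the standard presentation, `x₀ = of false`, `x₁ = of true` -/
def relators : Set (FreeGroup Bool) :=
  let a : FreeGroup Bool := FreeGroup.of false
  let b : FreeGroup Bool := FreeGroup.of true
  {(a * b⁻¹) * (a⁻¹ * b * a) * (a * b⁻¹)⁻¹ * (a⁻¹ * b * a)⁻¹,
    (a * b⁻¹) * (a⁻¹ * a⁻¹ * b * a * a) * (a * b⁻¹)⁻¹ * (a⁻¹ * a⁻¹ * b * a * a)⁻¹}

/-! ### Words -/

/-- value of a letter: the constant `κ c` or the variable `σ n`, or the inverse of it -/
def letter {G K : Type} [Group G] (κ : K → G) (σ : ℕ → G) (p : Bool × (K ⊕ ℕ)) : G :=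
  if p.1 then Sum.elim κ σ p.2 else (Sum.elim κ σ p.2)⁻¹

/-- value of a word when the constants are `κ` and the variables are `σ` -/
def value {G K : Type} [Group G] (κ : K → G) (σ : ℕ → G) (w : List (Bool × (K ⊕ ℕ))) : G :=
  (w.map (letter κ σ)).prod

/-- the signed variable of a letter; nothing for a constant -/
def varOf {K : Type} (p : Bool × (K ⊕ ℕ)) : Option (Bool × ℕ) :=
  Sum.elim (fun _ => none) (fun n => some (p.1, n)) p.2

/-- the signed variables of a word, in their order -/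
def vars {K : Type} (w : List (Bool × (K ⊕ ℕ))) : List (Bool × ℕ) := w.filterMap varOf

/-- every variable which occurs in the word occurs exactly twice -/
def Quadratic {K : Type} (w : List (Bool × (K ⊕ ℕ))) : Prop :=
  ∀ n : ℕ, (vars w).countP (fun q => q.2 = n) = 0 ∨ (vars w).countP (fun q => q.2 = n) = 2

/-- some variable occurs twice with the same sign (the word is not orientable) -/
def SameSign {K : Type} (w : List (Bool × (K ⊕ ℕ))) : Prop := ∃ s n, (vars w).count (s, n) = 2

/-- the occurrences of the variables `X` and `Y`, in their order -/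
def restr {K : Type} (w : List (Bool × (K ⊕ ℕ))) (X Y : ℕ) : List (Bool × ℕ) :=
  (vars w).filter (fun q => q.2 = X ∨ q.2 = Y)

/-- there are two variables which are interleaved `X Y X Y` and do not both keep their sign, or
which are not interleaved and both keep their sign -/
def Handle {K : Type} (w : List (Bool × (K ⊕ ℕ))) : Prop :=
  ∃ X Y, X ≠ Y ∧ ∃ a b c d : Bool,
    (restr w X Y = [(a, X), (b, Y), (c, X), (d, Y)] ∧ (a ≠ c ∨ b ≠ d)) ∨
    restr w X Y = [(a, X), (a, X), (b, Y), (b, Y)] ∨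
    restr w X Y = [(a, X), (b, Y), (b, Y), (a, X)]

/-- the set of the products `c₁^{y₁} ⋯ cₙ^{yₙ}` of conjugates of the members of a list -/
def conjProducts {G : Type} [Group G] : List G → Set G
  | [] => {1}
  | c :: cs => {g | ∃ y h, h ∈ conjProducts cs ∧ g = y * c * y⁻¹ * h}

/-- the set of all conjugates of the values of a word; it contains `1` iff the equation `w = 1`
has a solution -/
def Values {G K : Type} [Group G] (κ : K → G) (w : List (Bool × (K ⊕ ℕ))) : Set G :=
  {g | ∃ (σ : ℕ → G) (y : G), g = y * value κ σ w * y⁻¹}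

/-! ### Comparison with the definitions of the helper files -/

section bridge

open Pool.Agent.K9h94

theorem F_eq : F = Pool.Agent.Helper283.PL.Sup 0 1 :=
  SetLike.ext fun g => (ThF.mem_F_iff g).symm

theorem conjProducts_eq {G : Type} [Group G] (cs : List G) : conjProducts cs = ThF.CP cs := by
  induction cs with
  | nil => rfl
  | cons c cs ih =>
    show {g | ∃ y h, h ∈ conjProducts cs ∧ g = y * c * y⁻¹ * h} =
      {g | ∃ y h, h ∈ ThF.CP cs ∧ g = y * c * y⁻¹ * h}
    rw [ih]

end bridge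

/-! ### The words without `Handle` -/

/-- A quadratic word without `Handle`, over any group: the set of all conjugates of its values is
the set of the products of conjugates of the members of some list (if no variable keeps its sign),
or the set of the products of a square and such a product (if some variable keeps its sign). -/
theorem without_handle (G K : Type) [Group G] (κ : K → G) (w : List (Bool × (K ⊕ ℕ)))
    (hq : Quadratic w) (hh : ¬ Handle w) :
    ((∃ σ : ℕ → G, value κ σ w = 1) ↔ 1 ∈ Values κ w) ∧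
    (¬ SameSign w → ∃ cs : List G, 2 * cs.length = (vars w).length + 2 ∧
      Values κ w = conjProducts cs) ∧
    (SameSign w → ∃ cs : List G, 2 * cs.length = (vars w).length ∧
      Values κ w = {g | ∃ s, ∃ h ∈ conjProducts cs, g = s * s * h}) := by
  refine ⟨Pool.Agent.K9h94.ThF.solvable_iff_Vals κ w, fun hs => ?_, fun hs => ?_⟩
  · obtain ⟨cs, h1, h2⟩ := Pool.Agent.K9h94.ThF.sphere_reduce κ hq hs hh
    exact ⟨cs, h1, by rw [conjProducts_eq]; exact h2⟩
  · obtain ⟨cs, h1, h2⟩ := Pool.Agent.K9h94.ThF.proj_reduce κ hq hs hh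
    exact ⟨cs, h1, by rw [conjProducts_eq]; exact h2⟩

/-! ### The result -/

theorem result :
    -- (0) `F` is the group with the standard presentation, and germs at the ends exist
    ((∃ Θ : PresentedGroup relators ≃* F,
        (∀ x : ℝ, 0 ≤ x → x ≤ 1 / 2 →
          (Θ (PresentedGroup.of false) : Equiv.Perm ℝ) x = x / 2) ∧
        (∀ x : ℝ, 1 / 2 ≤ x → x ≤ 3 / 4 →
          (Θ (PresentedGroup.of false) : Equiv.Perm ℝ) x = x - 1 / 4) ∧
        (∀ x : ℝ, 3 / 4 ≤ x → x ≤ 1 →
          (Θ (PresentedGroup.of false) : Equiv.Perm ℝ) x = 2 * x - 1) ∧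
        (∀ x : ℝ, 0 ≤ x → x ≤ 1 / 2 → (Θ (PresentedGroup.of true) : Equiv.Perm ℝ) x = x) ∧
        (∀ x : ℝ, 0 ≤ x → x ≤ 1 → (Θ (PresentedGroup.of true) : Equiv.Perm ℝ) ((1 + x) / 2) =
          (1 + (Θ (PresentedGroup.of false) : Equiv.Perm ℝ) x) / 2)) ∧
      (∀ g : F, ∃ k l, Germs (g : Equiv.Perm ℝ) k l)) ∧
    -- (1) the algorithm for the words with `Handle`
    (∃ f : List (Bool × (Bool ⊕ ℕ)) → Option Bool, Computable f ∧
      ∀ w : List (Bool × (Bool ⊕ ℕ)),
        (∀ n : ℕ, w.countP (fun p : Bool × (Bool ⊕ ℕ) => decide (p.2 = Sum.inr n)) = 0 ∨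
            w.countP (fun p : Bool × (Bool ⊕ ℕ) => decide (p.2 = Sum.inr n)) = 2) →
        (f w = none ↔ ¬ Handle w) ∧
        (Handle w → (f w = some true ↔
          ∃ σ : ℕ → PresentedGroup relators,
            (w.map (fun p : Bool × (Bool ⊕ ℕ) =>
              if p.1 then
                Sum.elim (fun c : Bool => (PresentedGroup.of c : PresentedGroup relators)) σ p.2
              else
                (Sum.elim (fun c : Bool =>
                  (PresentedGroup.of c : PresentedGroup relators)) σ p.2)⁻¹)).prod = 1))) ∧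
    -- (2) the criterion for the words with `Handle` and arbitrary constants
    (∀ (K : Type) (κ : K → F) (w : List (Bool × (K ⊕ ℕ))), Quadratic w → Handle w →
      ∀ k l : ℤ, Germs ((value κ (fun _ => 1) w : F) : Equiv.Perm ℝ) k l →
        (SameSign w → ((∃ σ : ℕ → F, value κ σ w = 1) ↔ Even k ∧ Even l)) ∧
        (¬ SameSign w → ((∃ σ : ℕ → F, value κ σ w = 1) ↔ k = 0 ∧ l = 0))) := by
  have hF := F_eq
  generalize F = F' at *
  subst hF
  have hR : relators = Pool.Agent.H245R3.TF.rels := rfl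
  generalize relators = R at *
  subst hR
  refine ⟨⟨⟨Pool.Agent.K9h94.ThF.Th, ?_, ?_, ?_, ?_, ?_⟩, ?_⟩, ?_, ?_⟩
  · intro x h0 h1
    rw [Pool.Agent.K9h94.ThF.Th_a]
    exact Pool.Agent.K9h94.ThF.Xinv_zero h0 h1
  · intro x h0 h1
    rw [Pool.Agent.K9h94.ThF.Th_a]
    exact Pool.Agent.K9h94.ThF.Xinv_mid h0 h1
  · intro x h0 h1
    rw [Pool.Agent.K9h94.ThF.Th_a]
    exact Pool.Agent.K9h94.ThF.Xinv_one h0 h1
  · intro x h0 h1
    rw [Pool.Agent.K9h94.ThF.Th_b]
    exact Pool.Agent.K9h94.ThF.Yinv_out (Or.inl h1)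
  · intro x h0 h1
    rw [Pool.Agent.K9h94.ThF.Th_a, Pool.Agent.K9h94.ThF.Th_b,
      Pool.Agent.K9h94.ThF.Yinv_in (by linarith) (by linarith),
      show 2 * ((1 + x) / 2) - 1 = x by ring, add_comm]
  · intro g
    exact Pool.Agent.K9h94.ThF.F_germs g.2
  · refine ⟨Pool.Agent.K9h94.ThF.alg, Pool.Agent.K9h94.ThF.alg_computable, fun w hw => ?_⟩
    have hq := (Pool.Agent.K9h94.ThF.quad_iff w).2 hw
    exact ⟨Pool.Agent.K9h94.ThF.alg_none w, fun hh => Pool.Agent.K9h94.ThF.alg_true hq hh⟩
  · intro K κ w hq hh k l hg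
    have h := Pool.Agent.K9h94.ThF.handle_germs κ hq hh hg
    refine ⟨fun hs => ?_, fun hs => ?_⟩
    · exact h.trans ⟨fun h1 => h1.1 hs, fun h1 => ⟨fun _ => h1, fun h2 => absurd hs h2⟩⟩
    · exact h.trans ⟨fun h1 => h1.2 hs, fun h1 => ⟨fun h2 => absurd h2 hs, fun _ => h1⟩⟩

end Pool.Agent.Results.MP_3bcd2d_al.QuadraticWithHandle
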