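import Mathlib
import Pool.Agent.K9h94.ThF.Final

set_option autoImplicit false
set_option linter.unusedVariables false

/-!
# Spherical and projective quadratic equations in Thompson's group `F`

The spherical equation `c₁^{y₁} ⋯ cₙ^{yₙ} = 1` and the projective equation
`s² c₁^{y₁} ⋯ cₙ^{yₙ} = 1` are solved when some coefficient moves all points of `(0, 1)` up and
another one moves them all down (in the spherical case a third coefficient must be nontrivial):
then they have a solution iff they have one modulo the commutator subgroup.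
-/

namespace Pool.Agent.Results.MP_3bcd2d_al.UpAndDownCoefficients

/-- `r` is a dyadic rational number -/
def IsDyadic (r : ℝ) : Prop := ∃ (m : ℤ) (e : ℕ), r = m / 2 ^ e

/-- `g` belongs to Thompson's group `F`: an increasing bijection of the line, the identity outside
`[0, 1]`, and affine with slopes powers of two on the pieces of a finite subdivision
`0 = t 0 < t 1 < ⋯ < t n = 1` of `[0, 1]` by dyadic rationals -/
def InF (g : Equiv.Perm ℝ) : Prop :=
  StrictMono g ∧ (∀ x, x ≤ 0 ∨ 1 ≤ x → g x = x) ∧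
    ∃ (n : ℕ) (t : ℕ → ℝ) (k : ℕ → ℤ) (c : ℕ → ℝ), t 0 = 0 ∧ t n = 1 ∧
      (∀ i < n, t i < t (i + 1)) ∧ (∀ i ≤ n, IsDyadic (t i)) ∧
      ∀ i < n, ∀ x, t i ≤ x → x ≤ t (i + 1) → g x = (2 : ℝ) ^ k i * x + c i

/-- Thompson's group `F` -/
def F : Subgroup (Equiv.Perm ℝ) where
  carrier := {g | InF g}
  mul_mem' {a b} ha hb := (Pool.Agent.K9h94.ThF.mem_F_iff _).1
    (Subgroup.mul_mem _ ((Pool.Agent.K9h94.ThF.mem_F_iff a).2 ha)
      ((Pool.Agent.K9h94.ThF.mem_F_iff b).2 hb))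
  one_mem' := (Pool.Agent.K9h94.ThF.mem_F_iff _).1 (Subgroup.one_mem _)
  inv_mem' {a} ha := (Pool.Agent.K9h94.ThF.mem_F_iff _).1
    (Subgroup.inv_mem _ ((Pool.Agent.K9h94.ThF.mem_F_iff a).2 ha))

/-- `g` has slope `2 ^ k` at the left end of `[0, 1]` and slope `2 ^ l` at the right end -/
def Germs (g : ℝ → ℝ) (k l : ℤ) : Prop :=
  (∃ ε > 0, ∀ x, 0 ≤ x → x ≤ ε → g x = (2 : ℝ) ^ k * x) ∧
  (∃ ε > 0, ∀ x, 1 - ε ≤ x → x ≤ 1 → g x = 1 - (2 : ℝ) ^ l * (1 - x))

/-- the set of the products `c₁^{y₁} ⋯ cₙ^{yₙ}` of conjugates of the members of a list -/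
def conjProducts {G : Type} [Group G] : List G → Set G
  | [] => {1}
  | c :: cs => {g | ∃ y h, h ∈ conjProducts cs ∧ g = y * c * y⁻¹ * h}

theorem F_eq : F = Pool.Agent.Helper283.PL.Sup 0 1 :=
  SetLike.ext fun g => (Pool.Agent.K9h94.ThF.mem_F_iff g).symm

theorem conjProducts_eq {G : Type} [Group G] (cs : List G) :
    conjProducts cs = Pool.Agent.K9h94.ThF.CP cs := by
  induction cs with
  | nil => rfl
  | cons c cs ih =>
    show {g | ∃ y h, h ∈ conjProducts cs ∧ g = y * c * y⁻¹ * h} =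
      {g | ∃ y h, h ∈ Pool.Agent.K9h94.ThF.CP cs ∧ g = y * c * y⁻¹ * h}
    rw [ih]

theorem result (cs : List F) (u d : F)
    (hu : ∀ x : ℝ, 0 < x → x < 1 → x < (u : Equiv.Perm ℝ) x)
    (hd : ∀ x : ℝ, 0 < x → x < 1 → (d : Equiv.Perm ℝ) x < x)
    (k l : ℤ) (hg : Germs ((cs.prod : F) : Equiv.Perm ℝ) k l) :
    (∀ (r : F) (rest : List F), cs.Perm (u :: d :: r :: rest) → r ≠ 1 →
      (1 ∈ conjProducts cs ↔ k = 0 ∧ l = 0)) ∧
    (∀ rest : List F, cs.Perm (u :: d :: rest) →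
      ((∃ s, ∃ g ∈ conjProducts cs, s * s * g = 1) ↔ Even k ∧ Even l)) := by
  revert cs u d
  have hF := F_eq
  generalize F = F' at *
  subst hF
  intro cs u d hu hd hg
  refine ⟨fun r rest hp hr => ?_, fun rest hp => ?_⟩
  · rw [conjProducts_eq]
    exact Pool.Agent.K9h94.ThF.sphere_germs hp hu hd hr hg
  · rw [conjProducts_eq]
    exact Pool.Agent.K9h94.ThF.proj_germs hp hu hd hg

end Pool.Agent.Results.MP_3bcd2d_al.UpAndDownCoefficients
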